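import Pool.Agent.H48Maj.Main

/-!
MP_dcf3dc_co, Q1: every Eulerian graph has a strong majority edge-coloring with three colors.
-/

namespace Pool.Agent.Results.MP_dcf3dc_co.EulerianMajThree

open SimpleGraph

universe u

/-- Every Eulerian graph (finite, simple, connected, all degrees even) has a strong majority
edge-coloring with three colors, i.e. `Maj'(G) ≤ 3`. -/
theorem result {V : Type u} [Fintype V] (G : SimpleGraph V) [DecidableRel G.Adj]
    (hconn : G.Connected) (heven : ∀ v : V, Even (G.degree v)) :
    ∃ c : G.edgeSet → Fin 3, Pool.Agent.H48Maj.IsStrongMajorityColoring G c := by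
  classical
  exact Pool.Agent.H48Maj.main_theorem hconn heven

end Pool.Agent.Results.MP_dcf3dc_co.EulerianMajThree
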